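import Pool.Agent.Q3.Butson.Main

open Pool.Agent.Q3.Butson

namespace Pool.Agent.Results.MP_812af1_co.MixedClass

/-- There is a Butson matrix `H` (`m = 4`, `n = 256`) such that some normalised matrix equivalent
to `H` is row balanced and column balanced, and another normalised matrix equivalent to `H` is not
row balanced. -/
theorem result : ∃ (m n : ℕ) (_ : NeZero n) (H : Matrix (Fin n) (Fin n) ℂ),
    m = 4 ∧ n = 256 ∧ IsButson m H ∧
    (∃ K : Matrix (Fin n) (Fin n) ℂ, Equivalent m H K ∧ Normalised K ∧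
      RowBalanced m K ∧ ColBalanced m K) ∧
    (∃ K : Matrix (Fin n) (Fin n) ℂ, Equivalent m H K ∧ Normalised K ∧ ¬ RowBalanced m K) :=
  ⟨4, 16 * 16, inferInstance, H, rfl, rfl, H_butson,
    ⟨H, ⟨1, 1, fun _ => 1, fun _ => 1, fun _ => one_pow _, fun _ => one_pow _,
      fun i j => by simp⟩, H_normalised, H_row, H_col⟩,
    ⟨K, K_equiv, K_normalised, K_not_row⟩⟩

end Pool.Agent.Results.MP_812af1_co.MixedClass
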